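import Pool.Agent.Lib.MP_abd978_an.PL.Defs
import Pool.Agent.Lib.MP_abd978_an.H58.Core

/-!
PLANAR: auxiliary lemmas for IDENT and CHTWO (helper61).
-/

set_option autoImplicit false

open MeasureTheory Metric Set Filter Topology ContDiff
open scoped Gradient RealInnerProductSpace

namespace Pool.Agent.Lib.MP_abd978_an.PL.H61

open Pool.Agent.Lib.MP_abd978_an.H58 (measurable_grad)

/-! ### Rotation -/

theorem rot_rot (a : E 2) : rot (rot a) = -a := by
  ext i
  fin_cases i
  · simp [rot]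
  · simp [rot]

theorem rot_sub (a b : E 2) : rot (a - b) = rot a - rot b := by
  ext i
  fin_cases i
  · simp [rot]; ring
  · simp [rot]

theorem rot_smul (c : ℝ) (a : E 2) : rot (c • a) = c • rot a := by
  ext i
  fin_cases i
  · simp [rot]
  · simp [rot]

theorem inner_rot_right (a b : E 2) : ⟪a, rot b⟫ = -⟪rot a, b⟫ := by
  rw [inner_eq, inner_eq, rot_zero_apply, rot_one_apply, rot_zero_apply, rot_one_apply]
  ring

theorem inner_rot_rot (a b : E 2) : ⟪rot a, rot b⟫ = ⟪a, b⟫ := by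
  rw [inner_eq, inner_eq, rot_zero_apply, rot_one_apply, rot_zero_apply, rot_one_apply]
  ring

theorem continuous_rot : Continuous rot := by
  have h : LipschitzWith 1 rot := by
    refine LipschitzWith.of_dist_le_mul fun x y => ?_
    rw [dist_eq_norm, ← rot_sub, norm_rot, dist_eq_norm]
    simp
  exact h.continuous

/-! ### Convergence of integrals -/

/-- bounded convergence times convergence in `L¹` -/
theorem conv1 {ν : Measure (E 2)} {g : ℕ → E 2 → ℝ} {G : E 2 → ℝ} {F : ℕ → E 2 → ℝ}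
    {F' : E 2 → ℝ} {B : ℝ} (hg : ∀ i, AEStronglyMeasurable (g i) ν)
    (hG : AEStronglyMeasurable G ν) (hB : ∀ i x, |g i x| ≤ B) (hB' : ∀ x, |G x| ≤ B)
    (hlim : ∀ᵐ x ∂ν, Tendsto (fun i => g i x) atTop (𝓝 (G x)))
    (hF : ∀ i, Integrable (F i) ν) (hF' : Integrable F' ν)
    (hc : Tendsto (fun i => eLpNorm (fun x => F i x - F' x) 1 ν) atTop (𝓝 0)) :
    Tendsto (fun i => ∫ x, g i x * F i x ∂ν) atTop (𝓝 (∫ x, G x * F' x ∂ν)) := by
  have h1 : ∀ i, Integrable (fun x => g i x * F i x) ν := fun i =>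
    (hF i).bdd_mul (hg i) (Eventually.of_forall fun x => by
      rw [Real.norm_eq_abs]; exact hB i x)
  have h2 : Integrable (fun x => G x * F' x) ν :=
    hF'.bdd_mul hG (Eventually.of_forall fun x => by
      rw [Real.norm_eq_abs]; exact hB' x)
  have h3 : ∀ i, Integrable (fun x => g i x * F' x) ν := fun i =>
    hF'.bdd_mul (hg i) (Eventually.of_forall fun x => by
      rw [Real.norm_eq_abs]; exact hB i x)
  -- first part
  have h4 : Tendsto (fun i => ∫ x, g i x * F' x ∂ν) atTop (𝓝 (∫ x, G x * F' x ∂ν)) := by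
    refine tendsto_integral_of_dominated_convergence (fun x => B * |F' x|)
      (fun i => (h3 i).aestronglyMeasurable) (hF'.abs.const_mul B) (fun i => ?_) ?_
    · refine Eventually.of_forall fun x => ?_
      rw [Real.norm_eq_abs, abs_mul]
      exact mul_le_mul_of_nonneg_right (hB i x) (abs_nonneg _)
    · filter_upwards [hlim] with x hx
      exact hx.mul_const _
  have h5 : Tendsto (fun i => ∫ x, g i x * (F i x - F' x) ∂ν) atTop (𝓝 0) := by
    rw [tendsto_zero_iff_norm_tendsto_zero]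
    have h6 : Tendsto (fun i => B * (eLpNorm (fun x => F i x - F' x) 1 ν).toReal) atTop
        (𝓝 0) := by
      have h7 := (ENNReal.tendsto_toReal ENNReal.zero_ne_top).comp hc
      have h8 := h7.const_mul B
      simpa using h8
    refine squeeze_zero (fun i => norm_nonneg _) (fun i => ?_) h6
    have h9 : Integrable (fun x => F i x - F' x) ν := (hF i).sub hF'
    calc ‖∫ x, g i x * (F i x - F' x) ∂ν‖ ≤ ∫ x, ‖g i x * (F i x - F' x)‖ ∂ν :=
          norm_integral_le_integral_norm _
      _ ≤ ∫ x, B * ‖F i x - F' x‖ ∂ν := by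
          refine integral_mono_of_nonneg (Eventually.of_forall fun x => norm_nonneg _)
            (h9.norm.const_mul B) (Eventually.of_forall fun x => ?_)
          simp only [norm_mul]
          refine mul_le_mul_of_nonneg_right ?_ (norm_nonneg _)
          rw [Real.norm_eq_abs]; exact hB i x
      _ = B * (eLpNorm (fun x => F i x - F' x) 1 ν).toReal := by
          rw [integral_const_mul, eLpNorm_one_eq_lintegral_enorm,
            integral_norm_eq_lintegral_enorm h9.aestronglyMeasurable]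
  have h10 := h4.add h5
  rw [add_zero] at h10
  refine h10.congr fun i => ?_
  have h11 : Integrable (fun x => g i x * (F i x - F' x)) ν :=
    ((hF i).sub hF').bdd_mul (hg i) (Eventually.of_forall fun x => by
      rw [Real.norm_eq_abs]; exact hB i x)
  rw [← integral_add (h3 i) h11]
  refine integral_congr_ae (Eventually.of_forall fun x => ?_)
  simp only
  ring

/-! ### The weight -/

theorem Wt.restrict_eq {p : ℝ} {w : E 2 → ℝ} {D : Set (E 2)} (h : Wt p w D) :
    (wm w).restrict D = (volume.restrict D).withDensity fun x => ENNReal.ofReal (w x) :=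
  restrict_withDensity h.isOpen.measurableSet _

theorem Wt.aemeas {p : ℝ} {w : E 2 → ℝ} {D : Set (E 2)} (h : Wt p w D) :
    AEMeasurable (fun x => ENNReal.ofReal (w x)) (volume.restrict D) :=
  h.int.1.aemeasurable.ennreal_ofReal

/-- almost everywhere with respect to `w dx` -/
theorem Wt.ae_of {p : ℝ} {w : E 2 → ℝ} {D : Set (E 2)} (h : Wt p w D) {P : E 2 → Prop}
    (hP : ∀ᵐ x ∂((wm w).restrict D), P x) : ∀ᵐ x ∂(volume.restrict D), P x := by
  rw [Wt.restrict_eq h, ae_withDensity_iff' (Wt.aemeas h)] at hP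
  filter_upwards [hP, h.pos] with x hx hx'
  exact hx (by simpa using hx')

/-- Hölder's inequality -/
theorem Wt.le {p : ℝ} {w : E 2 → ℝ} {D : Set (E 2)} (h : Wt p w D) : ∃ C : ENNReal, C ≠ ⊤ ∧
    ∀ f : E 2 → E 2, AEStronglyMeasurable f (volume.restrict D) →
      eLpNorm f 1 (volume.restrict D) ≤ C * eLpNorm f (ENNReal.ofReal p) ((wm w).restrict D) := by
  have hp := h.hp
  have hp0 : 0 < p := by linarith
  set q := p / (p - 1) with hq
  have hpq : p.HolderConjugate q := by
    rw [Real.holderConjugate_iff]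
    refine ⟨hp, ?_⟩
    rw [hq]
    have : p - 1 ≠ 0 := by linarith
    field_simp
    ring
  have hq0 : 0 < q := hpq.symm.pos
  refine ⟨(∫⁻ x in D, ENNReal.ofReal (w x ^ (-(1 / (p - 1))))) ^ (1 / q), ?_, ?_⟩
  · refine ENNReal.rpow_ne_top_of_nonneg (by positivity) ?_
    have h1 := h.dual.2
    have h2 : ∫⁻ x in D, ENNReal.ofReal (w x ^ (-(1 / (p - 1)))) =
        ∫⁻ x in D, ‖w x ^ (-(1 / (p - 1)))‖ₑ := by
      refine lintegral_congr_ae ?_
      filter_upwards [h.pos] with x hx
      rw [Real.enorm_of_nonneg (Real.rpow_nonneg hx.le _)]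
    rw [h2]
    exact h1.ne
  · intro f hf
    have hpt : ENNReal.ofReal p ≠ ⊤ := ENNReal.ofReal_ne_top
    have hpn : ENNReal.ofReal p ≠ 0 := by simpa using hp0
    rw [eLpNorm_one_eq_lintegral_enorm, eLpNorm_eq_lintegral_rpow_enorm_toReal hpn hpt,
      ENNReal.toReal_ofReal hp0.le, Wt.restrict_eq h]
    have hw := Wt.aemeas h
    have hfm : AEMeasurable (fun x => ‖f x‖ₑ) (volume.restrict D) := hf.enorm
    rw [lintegral_withDensity_eq_lintegral_mul₀ hw (hfm.pow_const p)]
    have h1 : ∫⁻ x in D, ‖f x‖ₑ = ∫⁻ x in D,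
        ((fun x => ENNReal.ofReal (w x) ^ (1 / p) * ‖f x‖ₑ) *
          (fun x => ENNReal.ofReal (w x) ^ (-(1 / p)))) x := by
      refine lintegral_congr_ae ?_
      filter_upwards [h.pos] with x hx
      have hwx : ENNReal.ofReal (w x) ≠ 0 := by simpa using hx
      simp only [Pi.mul_apply]
      rw [mul_right_comm, ← ENNReal.rpow_add _ _ hwx ENNReal.ofReal_ne_top]
      simp
    have h2 := ENNReal.lintegral_mul_le_Lp_mul_Lq (volume.restrict D) hpq
      (f := fun x => ENNReal.ofReal (w x) ^ (1 / p) * ‖f x‖ₑ)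
      (g := fun x => ENNReal.ofReal (w x) ^ (-(1 / p))) ((hw.pow_const _).mul hfm)
      (hw.pow_const _)
    rw [← h1] at h2
    refine h2.trans (le_of_eq ?_)
    rw [mul_comm]
    congr 1
    · congr 1
      refine lintegral_congr_ae ?_
      filter_upwards [h.pos] with x hx
      rw [← ENNReal.rpow_mul, ← ENNReal.ofReal_rpow_of_pos hx]
      congr 1
      rw [hq]
      have : p - 1 ≠ 0 := by linarith
      field_simp
    · congr 1
      refine lintegral_congr fun x => ?_
      simp only [Pi.mul_apply]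
      rw [ENNReal.mul_rpow_of_nonneg _ _ hp0.le, ← ENNReal.rpow_mul]
      congr 1
      rw [one_div, inv_mul_cancel₀ hp0.ne', ENNReal.rpow_one]

/-- the flux times an `L^p` function -/
theorem Pair.le {p α β : ℝ} {w : E 2 → ℝ} {D : Set (E 2)} {u v : E 2 → ℝ} {V a : E 2 → E 2}
    (h : Pair p α β w D u v V a) : ∃ C : ENNReal, C ≠ ⊤ ∧
    ∀ f : E 2 → E 2, AEStronglyMeasurable f (volume.restrict D) →
      ∫⁻ x in D, ‖a x‖ₑ * ‖f x‖ₑ ≤ C * eLpNorm f (ENNReal.ofReal p) ((wm w).restrict D) := by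
  have hwt := h.wt
  have hp := hwt.hp
  have hp0 : 0 < p := by linarith
  have hp1 : 0 < p - 1 := by linarith
  set q := p / (p - 1) with hq
  have hpq : p.HolderConjugate q := by
    rw [Real.holderConjugate_iff]
    refine ⟨hp, ?_⟩
    rw [hq]
    have : p - 1 ≠ 0 := by linarith
    field_simp
    ring
  have hq0 : 0 < q := hpq.symm.pos
  have hpt : ENNReal.ofReal p ≠ ⊤ := ENNReal.ofReal_ne_top
  have hpn : ENNReal.ofReal p ≠ 0 := by simpa using hp0
  have hVm : MemLp V (ENNReal.ofReal p) ((wm w).restrict D) := h.sobu.2.1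
  have hfin : ∫⁻ x, ‖V x‖ₑ ^ p ∂((wm w).restrict D) ≠ ⊤ := by
    have h1 := lintegral_rpow_enorm_lt_top_of_eLpNorm_lt_top hpn hpt hVm.2
    rw [ENNReal.toReal_ofReal hp0.le] at h1
    exact h1.ne
  refine ⟨ENNReal.ofReal β * (∫⁻ x, ‖V x‖ₑ ^ p ∂((wm w).restrict D)) ^ (1 / q), ?_, ?_⟩
  · exact ENNReal.mul_ne_top ENNReal.ofReal_ne_top
      (ENNReal.rpow_ne_top_of_nonneg (by positivity) hfin)
  · intro f hf
    have hw := Wt.aemeas hwt
    have habs : (wm w).restrict D ≪ volume.restrict D := by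
      rw [Wt.restrict_eq hwt]
      exact withDensity_absolutelyContinuous _ _
    have hfm : AEMeasurable (fun x => ‖f x‖ₑ) ((wm w).restrict D) := (hf.mono_ac habs).enorm
    have hVe : AEMeasurable (fun x => ‖V x‖ₑ ^ (p - 1)) ((wm w).restrict D) :=
      hVm.1.enorm.pow_const _
    have h2 := ENNReal.lintegral_mul_le_Lp_mul_Lq ((wm w).restrict D) hpq
      (f := fun x => ‖f x‖ₑ) (g := fun x => ‖V x‖ₑ ^ (p - 1)) hfm hVe
    have h3 : ∫⁻ x in D, ‖a x‖ₑ * ‖f x‖ₑ ≤ ENNReal.ofReal β *
        ∫⁻ x, ((fun x => ‖f x‖ₑ) * fun x => ‖V x‖ₑ ^ (p - 1)) x ∂((wm w).restrict D) := by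
      rw [Wt.restrict_eq hwt, lintegral_withDensity_eq_lintegral_mul₀' hw ?_]
      · rw [← lintegral_const_mul' _ _ ENNReal.ofReal_ne_top]
        refine lintegral_mono_ae ?_
        filter_upwards [h.bdd, hwt.pos] with x hx hx'
        simp only [Pi.mul_apply]
        have h4 : ‖a x‖ₑ ≤ ENNReal.ofReal β * (ENNReal.ofReal (w x) * ‖V x‖ₑ ^ (p - 1)) := by
          rw [← ofReal_norm, ← ofReal_norm, ENNReal.ofReal_rpow_of_nonneg (norm_nonneg _) hp1.le,
            ← ENNReal.ofReal_mul hx'.le, ← ENNReal.ofReal_mul h.hβ.le]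
          exact ENNReal.ofReal_le_ofReal hx
        calc ‖a x‖ₑ * ‖f x‖ₑ ≤
              (ENNReal.ofReal β * (ENNReal.ofReal (w x) * ‖V x‖ₑ ^ (p - 1))) * ‖f x‖ₑ := by
              gcongr
          _ = ENNReal.ofReal β * (ENNReal.ofReal (w x) * (‖f x‖ₑ * ‖V x‖ₑ ^ (p - 1))) := by
              ring
      · rw [← Wt.restrict_eq hwt]
        exact hfm.mul hVe
    refine h3.trans ?_
    rw [mul_assoc]
    refine mul_le_mul_right (h2.trans (le_of_eq ?_)) _
    rw [eLpNorm_eq_lintegral_rpow_enorm_toReal hpn hpt, ENNReal.toReal_ofReal hp0.le]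
    rw [mul_comm]
    congr 2
    refine lintegral_congr fun x => ?_
    rw [← ENNReal.rpow_mul]
    congr 1
    rw [hq]
    field_simp

end Pool.Agent.Lib.MP_abd978_an.PL.H61
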