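import Pool.Agent.Lib.MP_abd978_an.PL.Defs
import Pool.Agent.Lib.MP_abd978_an.H58.Core

/-!
PLANAR: module CHTWO (helper61).
-/

set_option autoImplicit false

open MeasureTheory Metric Set Filter Topology ContDiff
open scoped Gradient RealInnerProductSpace

namespace Pool.Agent.Lib.MP_abd978_an.PL.H61

open Pool.Agent.Lib.MP_abd978_an.H58 (measurable_grad tendsto_of_le)

variable {n : ℕ}

/-- chain rule for a function of two functions -/
theorem grad_two {φ ψ : E n → ℝ} {Φ : ℝ × ℝ → ℝ} {x : E n} (hφ : DifferentiableAt ℝ φ x)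
    (hψ : DifferentiableAt ℝ ψ x) (hΦ : DifferentiableAt ℝ Φ (φ x, ψ x)) :
    ∇ (fun y => Φ (φ y, ψ y)) x =
      fderiv ℝ Φ (φ x, ψ x) (1, 0) • ∇ φ x + fderiv ℝ Φ (φ x, ψ x) (0, 1) • ∇ ψ x := by
  have h1 : HasFDerivAt (fun y => Φ (φ y, ψ y))
      ((fderiv ℝ Φ (φ x, ψ x)).comp ((fderiv ℝ φ x).prod (fderiv ℝ ψ x))) x :=
    HasFDerivAt.comp x (f := fun y => (φ y, ψ y)) hΦ.hasFDerivAt
      (hφ.hasFDerivAt.prodMk hψ.hasFDerivAt)
  have h2 : (fderiv ℝ Φ (φ x, ψ x)).comp ((fderiv ℝ φ x).prod (fderiv ℝ ψ x)) =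
      fderiv ℝ Φ (φ x, ψ x) (1, 0) • fderiv ℝ φ x +
        fderiv ℝ Φ (φ x, ψ x) (0, 1) • fderiv ℝ ψ x := by
    ext h
    simp only [ContinuousLinearMap.comp_apply, ContinuousLinearMap.prod_apply,
      add_apply, smul_apply, smul_eq_mul]
    have h3 : ((fderiv ℝ φ x) h, (fderiv ℝ ψ x) h) =
        (fderiv ℝ φ x) h • ((1 : ℝ), (0 : ℝ)) + (fderiv ℝ ψ x) h • ((0 : ℝ), (1 : ℝ)) := by
      simp
    rw [h3, map_add, map_smul, map_smul, smul_eq_mul, smul_eq_mul]
    ring
  rw [grad_of_hasFDerivAt h1, h2, map_add, map_smulₛₗ, map_smulₛₗ]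
  rfl

/-- dominated convergence in `L¹` -/
theorem dom1 {ν : Measure (E n)} {F G : Type} [NormedAddCommGroup F]
    [NormedAddCommGroup G] {g : ℕ → E n → F} {v : E n → G} {B : ℝ}
    (hg : ∀ i, AEStronglyMeasurable (g i) ν) (hv : MemLp v 1 ν)
    (hb : ∀ i, ∀ᵐ x ∂ν, ‖g i x‖ ≤ B * ‖v x‖)
    (hl : ∀ᵐ x ∂ν, Tendsto (fun i => g i x) atTop (𝓝 0)) :
    Tendsto (fun i => eLpNorm (g i) 1 ν) atTop (𝓝 0) := by
  simp_rw [eLpNorm_one_eq_lintegral_enorm]
  have h1 : Tendsto (fun i => ∫⁻ x, ‖g i x‖ₑ ∂ν) atTop (𝓝 (∫⁻ _, 0 ∂ν)) := by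
    refine tendsto_lintegral_of_dominated_convergence' (fun x => ‖B * ‖v x‖‖ₑ) ?_ ?_ ?_ ?_
    · intro i
      exact (hg i).enorm
    · intro i
      filter_upwards [hb i] with x hx
      rw [enorm_le_iff_norm_le]
      exact hx.trans (le_abs_self _)
    · have h2 : MemLp (fun x => B * ‖v x‖) 1 ν := hv.norm.const_mul B
      have h3 := h2.2
      rw [eLpNorm_one_eq_lintegral_enorm] at h3
      exact h3.ne
    · filter_upwards [hl] with x hx
      have h3 := (continuous_enorm.tendsto (0 : F)).comp hx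
      simpa [Function.comp_def] using h3
  rw [lintegral_zero] at h1
  exact h1

/-- sums -/
theorem tendsto_add1 {ν : Measure (E n)} {F : Type} [NormedAddCommGroup F]
    {g h : ℕ → E n → F}
    (hg : ∀ i, AEStronglyMeasurable (g i) ν) (hh : ∀ i, AEStronglyMeasurable (h i) ν)
    (hl : Tendsto (fun i => eLpNorm (g i) 1 ν) atTop (𝓝 0))
    (hl' : Tendsto (fun i => eLpNorm (h i) 1 ν) atTop (𝓝 0)) :
    Tendsto (fun i => eLpNorm (fun x => g i x + h i x) 1 ν) atTop (𝓝 0) := by
  have h1 := hl.add hl'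
  rw [add_zero] at h1
  exact tendsto_of_tendsto_of_tendsto_of_le_of_le tendsto_const_nhds h1 (fun _ => bot_le)
    fun i => eLpNorm_add_le (hg i) (hh i) le_rfl

/-- bounded factors which converge almost everywhere -/
theorem tendsto_smul1 {ν : Measure (E n)} {g : ℕ → E n → ℝ} {G : E n → ℝ} {w : ℕ → E n → E n}
    {V : E n → E n} {L : ℝ} (hg : ∀ i, AEStronglyMeasurable (g i) ν)
    (hG : AEStronglyMeasurable G ν) (hgL : ∀ i x, |g i x| ≤ L) (hGL : ∀ x, |G x| ≤ L)
    (hlim : ∀ᵐ x ∂ν, Tendsto (fun i => g i x) atTop (𝓝 (G x)))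
    (hw : ∀ i, AEStronglyMeasurable (w i) ν) (hV : MemLp V 1 ν)
    (hc : Tendsto (fun i => eLpNorm (fun x => w i x - V x) 1 ν) atTop (𝓝 0)) :
    Tendsto (fun i => eLpNorm (fun x => g i x • w i x - G x • V x) 1 ν) atTop (𝓝 0) := by
  have h1 : Tendsto (fun i => eLpNorm (fun x => g i x • (w i x - V x)) 1 ν) atTop (𝓝 0) := by
    refine tendsto_of_le (B := L) (fun i => Eventually.of_forall fun x => ?_) hc
    rw [norm_smul, Real.norm_eq_abs]
    exact mul_le_mul_of_nonneg_right (hgL i x) (norm_nonneg _)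
  have h2 : Tendsto (fun i => eLpNorm (fun x => (g i x - G x) • V x) 1 ν) atTop (𝓝 0) := by
    refine dom1 (B := L + L) (v := V) (fun i => ((hg i).sub hG).smul hV.1) hV
      (fun i => Eventually.of_forall fun x => ?_) ?_
    · rw [norm_smul, Real.norm_eq_abs]
      refine mul_le_mul_of_nonneg_right ?_ (norm_nonneg _)
      exact (abs_sub _ _).trans (add_le_add (hgL i x) (hGL x))
    · filter_upwards [hlim] with x hx
      have h3 := (hx.sub_const (G x)).smul_const (V x)
      simpa using h3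
  have h3 := tendsto_add1 (fun i => (hg i).smul ((hw i).sub hV.1))
    (fun i => ((hg i).sub hG).smul hV.1) h1 h2
  refine h3.congr fun i => ?_
  congr 1
  funext x
  show g i x • (w i x - V x) + (g i x - G x) • V x = g i x • w i x - G x • V x
  rw [smul_sub, sub_smul]
  abel

theorem exists_bounds {Φ : ℝ × ℝ → ℝ} (hΦ : ContDiff ℝ 1 Φ) (hc : HasCompactSupport Φ) :
    ∃ L : ℝ, 0 < L ∧ (∀ y, |Φ y| ≤ L) ∧ (∀ y, ‖fderiv ℝ Φ y‖ ≤ L) ∧
      (∀ y, |fderiv ℝ Φ y (1, 0)| ≤ L) ∧ (∀ y, |fderiv ℝ Φ y (0, 1)| ≤ L) ∧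
      ∀ y y', |Φ y - Φ y'| ≤ L * ‖y - y'‖ := by
  obtain ⟨C1, h1⟩ := hc.exists_bound_of_continuous hΦ.continuous
  obtain ⟨C2, h2⟩ := (hc.fderiv (𝕜 := ℝ)).exists_bound_of_continuous
    (hΦ.continuous_fderiv (by simp))
  have hL : ∀ y, ‖fderiv ℝ Φ y‖ ≤ max C1 (max C2 1) := fun y =>
    (h2 y).trans ((le_max_left _ _).trans (le_max_right _ _))
  refine ⟨max C1 (max C2 1), by positivity, fun x => (h1 x).trans (le_max_left _ _), hL,
    fun y => ?_, fun y => ?_, fun y y' => ?_⟩
  · have h3 := (fderiv ℝ Φ y).le_opNorm (1, 0)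
    rw [Real.norm_eq_abs] at h3
    have h4 : ‖((1 : ℝ), (0 : ℝ))‖ = 1 := by simp [Prod.norm_def]
    rw [h4, mul_one] at h3
    exact h3.trans (hL y)
  · have h3 := (fderiv ℝ Φ y).le_opNorm (0, 1)
    rw [Real.norm_eq_abs] at h3
    have h4 : ‖((0 : ℝ), (1 : ℝ))‖ = 1 := by simp [Prod.norm_def]
    rw [h4, mul_one] at h3
    exact h3.trans (hL y)
  · have h3 := Convex.norm_image_sub_le_of_norm_fderiv_le (𝕜 := ℝ) (f := Φ) (s := univ)
      (C := max C1 (max C2 1)) (x := y') (y := y)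
      (fun x _ => hΦ.differentiable (by simp) x) (fun x _ => hL x) convex_univ (mem_univ _)
      (mem_univ _)
    rwa [Real.norm_eq_abs] at h3

theorem chtwo : ChtwoStatement := by
  intro D u v V W Φ hD hbd hu hv hΦ hΦc
  rw [IsSob, ENNReal.ofReal_one] at hu hv ⊢
  obtain ⟨hu1, hV, φ, hφ, a1, a2⟩ := hu
  obtain ⟨hv1, hW, ψ, hψ, b1, b2⟩ := hv
  obtain ⟨L, hL0, hL, -, hLa, hLb, hLip⟩ := exists_bounds (hΦ.of_le (by simp)) hΦc
  have hDm : MeasurableSet D := hD.measurableSet
  have hfin : IsFiniteMeasure (volume.restrict D) :=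
    ⟨by rw [Measure.restrict_apply_univ]; exact hbd.measure_lt_top⟩
  have hφm : ∀ i, AEStronglyMeasurable (φ i) (volume.restrict D) := fun i =>
    (hφ i).continuousOn.aestronglyMeasurable hDm
  have hψm : ∀ i, AEStronglyMeasurable (ψ i) (volume.restrict D) := fun i =>
    (hψ i).continuousOn.aestronglyMeasurable hDm
  -- a common subsequence
  obtain ⟨k, hk, hk1⟩ := (tendstoInMeasure_of_tendsto_eLpNorm one_ne_zero hφm hu1.1
    a1).exists_seq_tendsto_ae
  obtain ⟨l, hl, hl1⟩ := (tendstoInMeasure_of_tendsto_eLpNorm one_ne_zero (fun i => hψm (k i))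
    hv1.1 (b1.comp hk.tendsto_atTop)).exists_seq_tendsto_ae
  have hkl : StrictMono (k ∘ l) := hk.comp hl
  have hk1' : ∀ᵐ x ∂(volume.restrict D), Tendsto (fun i => φ (k (l i)) x) atTop (𝓝 (u x)) := by
    filter_upwards [hk1] with x hx
    exact hx.comp hl.tendsto_atTop
  have hpair : ∀ᵐ x ∂(volume.restrict D),
      Tendsto (fun i => (φ (k (l i)) x, ψ (k (l i)) x)) atTop (𝓝 (u x, v x)) := by
    filter_upwards [hk1', hl1] with x hx hx'
    exact hx.prodMk_nhds hx'
  have hfd : Continuous (fderiv ℝ Φ) := hΦ.continuous_fderiv (by simp)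
  have hc1 : Continuous fun y => fderiv ℝ Φ y (1, 0) := hfd.clm_apply continuous_const
  have hc2 : Continuous fun y => fderiv ℝ Φ y (0, 1) := hfd.clm_apply continuous_const
  have huv : AEStronglyMeasurable (fun x => (u x, v x)) (volume.restrict D) :=
    hu1.1.prodMk hv1.1
  have hpm : ∀ i, AEStronglyMeasurable (fun x => (φ i x, ψ i x)) (volume.restrict D) := fun i =>
    (hφm i).prodMk (hψm i)
  refine ⟨?_, ?_, fun i x => Φ (φ (k (l i)) x, ψ (k (l i)) x), fun i => ?_, ?_, ?_⟩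
  · exact MemLp.of_bound (hΦ.continuous.comp_aestronglyMeasurable huv) L
      (Eventually.of_forall fun x => hL _)
  · refine MemLp.add ?_ ?_
    · refine hV.of_le_mul (c := L) ((hc1.comp_aestronglyMeasurable huv).smul hV.1)
        (Eventually.of_forall fun x => ?_)
      rw [norm_smul]
      exact mul_le_mul_of_nonneg_right (hLa _) (norm_nonneg _)
    · refine hW.of_le_mul (c := L) ((hc2.comp_aestronglyMeasurable huv).smul hW.1)
        (Eventually.of_forall fun x => ?_)
      rw [norm_smul]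
      exact mul_le_mul_of_nonneg_right (hLb _) (norm_nonneg _)
  · exact hΦ.comp_contDiffOn ((hφ _).prodMk (hψ _))
  · have h1 : Tendsto (fun i => eLpNorm (fun x => |φ (k (l i)) x - u x| +
        |ψ (k (l i)) x - v x|) 1 (volume.restrict D)) atTop (𝓝 0) := by
      refine tendsto_add1 (fun i => ((hφm _).sub hu1.1).norm) (fun i => ((hψm _).sub hv1.1).norm)
        ?_ ?_
      · have h2 := a1.comp hkl.tendsto_atTop
        refine h2.congr fun i => ?_
        exact (eLpNorm_norm (fun x => φ (k (l i)) x - u x)).symm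
      · have h2 := b1.comp hkl.tendsto_atTop
        refine h2.congr fun i => ?_
        exact (eLpNorm_norm (fun x => ψ (k (l i)) x - v x)).symm
    refine tendsto_of_le (B := L) (fun i => Eventually.of_forall fun x => ?_) h1
    rw [Real.norm_eq_abs]
    refine (hLip _ _).trans ?_
    refine mul_le_mul_of_nonneg_left ?_ hL0.le
    rw [Real.norm_of_nonneg (by positivity)]
    simp only [Prod.mk_sub_mk, Prod.norm_def, Real.norm_eq_abs]
    exact max_le_add_of_nonneg (abs_nonneg _) (abs_nonneg _)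
  · have h1 := tendsto_smul1 (g := fun i x => fderiv ℝ Φ (φ (k (l i)) x, ψ (k (l i)) x) (1, 0))
      (G := fun x => fderiv ℝ Φ (u x, v x) (1, 0)) (w := fun i x => ∇ (φ (k (l i))) x) (V := V)
      (fun i => hc1.comp_aestronglyMeasurable (hpm _)) (hc1.comp_aestronglyMeasurable huv)
      (fun i x => hLa _) (fun x => hLa _) (by
        filter_upwards [hpair] with x hx
        exact (hc1.tendsto _).comp hx) (fun i => (measurable_grad _).aestronglyMeasurable) hV
      (a2.comp hkl.tendsto_atTop)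
    have h2 := tendsto_smul1 (g := fun i x => fderiv ℝ Φ (φ (k (l i)) x, ψ (k (l i)) x) (0, 1))
      (G := fun x => fderiv ℝ Φ (u x, v x) (0, 1)) (w := fun i x => ∇ (ψ (k (l i))) x) (V := W)
      (fun i => hc2.comp_aestronglyMeasurable (hpm _)) (hc2.comp_aestronglyMeasurable huv)
      (fun i x => hLb _) (fun x => hLb _) (by
        filter_upwards [hpair] with x hx
        exact (hc2.tendsto _).comp hx) (fun i => (measurable_grad _).aestronglyMeasurable) hW
      (b2.comp hkl.tendsto_atTop)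
    have h3 := tendsto_add1 (fun i => ?_) (fun i => ?_) h1 h2
    · refine h3.congr fun i => ?_
      refine eLpNorm_congr_ae ?_
      refine (ae_restrict_iff' hDm).2 (Eventually.of_forall fun x hx => ?_)
      have h6 : DifferentiableAt ℝ (φ (k (l i))) x :=
        ((hφ _).contDiffAt (hD.mem_nhds hx)).differentiableAt (by simp)
      have h7 : DifferentiableAt ℝ (ψ (k (l i))) x :=
        ((hψ _).contDiffAt (hD.mem_nhds hx)).differentiableAt (by simp)
      simp only
      rw [grad_two h6 h7 (hΦ.differentiable (by simp) _)]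
      abel
    · exact ((hc1.comp_aestronglyMeasurable (hpm _)).smul
        (measurable_grad _).aestronglyMeasurable).sub
        ((hc1.comp_aestronglyMeasurable huv).smul hV.1)
    · exact ((hc2.comp_aestronglyMeasurable (hpm _)).smul
        (measurable_grad _).aestronglyMeasurable).sub
        ((hc2.comp_aestronglyMeasurable huv).smul hW.1)

end Pool.Agent.Lib.MP_abd978_an.PL.H61
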