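import Pool.Agent.Lib.MP_abd978_an.PL.H61.Basic
import Pool.Agent.Lib.MP_abd978_an.PL.H61.Chtwo

/-!
PLANAR: module IDENT (helper61).
-/

set_option autoImplicit false

open MeasureTheory Metric Set Filter Topology ContDiff
open scoped Gradient RealInnerProductSpace

namespace Pool.Agent.Lib.MP_abd978_an.PL.H61

open Pool.Agent.Lib.MP_abd978_an.H58 (measurable_grad tendsto_of_le)

theorem continuousOn_grad {n : ℕ} {D : Set (E n)} (hD : IsOpen D) {φ : E n → ℝ}
    (h : ContDiffOn ℝ ∞ φ D) : ContinuousOn (fun x => ∇ φ x) D := by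
  have h1 : ContinuousOn (fderiv ℝ φ) D := h.continuousOn_fderiv_of_isOpen hD (by simp)
  exact (InnerProductSpace.toDual ℝ (E n)).symm.continuous.comp_continuousOn h1

/-- the test function -/
theorem smooth_phi {n : ℕ} {D : Set (E n)} (hD : IsOpen D) {η U W : E n → ℝ} {b : ℝ × ℝ → ℝ}
    (hη : Test D η) (hb : ContDiff ℝ 1 b) (hU : ContDiffOn ℝ ∞ U D) (hW : ContDiffOn ℝ ∞ W D) :
    ContDiff ℝ 1 (fun x => η x * b (U x, W x)) := by
  rw [contDiff_iff_contDiffAt]
  intro x
  by_cases hx : x ∈ D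
  · have h1 : ContDiffAt ℝ 1 η x := (hη.1.of_le (by simp)).contDiffAt
    have h2 : ContDiffAt ℝ 1 (fun x => (U x, W x)) x :=
      ((hU.contDiffAt (hD.mem_nhds hx)).prodMk (hW.contDiffAt (hD.mem_nhds hx))).of_le (by simp)
    exact h1.mul (hb.contDiffAt.comp x h2)
  · have hx' : x ∉ tsupport η := fun h => hx (hη.2.2 h)
    have h1 : (fun y => η y * b (U y, W y)) =ᶠ[𝓝 x] fun _ => 0 := by
      filter_upwards [notMem_tsupport_iff_eventuallyEq.1 hx'] with y hy
      rw [hy]
      simp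
    exact contDiffAt_const.congr_of_eventuallyEq h1

/-- Stokes' formula for `η b(U, W)` -/
theorem stokes2 (hst : StokesStatement) {D : Set (E 2)} (hD : IsOpen D) {η U W Z : E 2 → ℝ}
    {b : ℝ × ℝ → ℝ} (hη : Test D η) (hb : ContDiff ℝ 1 b) (hU : ContDiffOn ℝ ∞ U D)
    (hW : ContDiffOn ℝ ∞ W D) (hZ : ContDiffOn ℝ ∞ Z D) :
    (∫ x in tsupport η, b (U x, W x) * ⟪∇ η x, rot (∇ Z x)⟫) +
      ((∫ x in tsupport η, fderiv ℝ b (U x, W x) (1, 0) * ⟪η x • ∇ U x, rot (∇ Z x)⟫) +
      ∫ x in tsupport η, fderiv ℝ b (U x, W x) (0, 1) * ⟪η x • ∇ W x, rot (∇ Z x)⟫) = 0 := by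
  have hΦ := smooth_phi hD hη hb hU hW
  have hKc : IsCompact (tsupport η) := hη.2.1
  have hKm : MeasurableSet (tsupport η) := hKc.measurableSet
  have hsub : tsupport (fun x => η x * b (U x, W x)) ⊆ tsupport η := tsupport_mul_subset_left
  have h0 := hst D (fun x => η x * b (U x, W x)) Z hD hΦ hη.2.1.mul_right (hsub.trans hη.2.2) hZ
  rw [← setIntegral_eq_integral_of_forall_compl_eq_zero (s := tsupport η) (fun x hx => by
    rw [grad_eq_zero_of_notMem (fun h => hx (hsub h)), inner_zero_left])] at h0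
  -- continuity
  have cU : ContinuousOn U (tsupport η) := hU.continuousOn.mono hη.2.2
  have cW : ContinuousOn W (tsupport η) := hW.continuousOn.mono hη.2.2
  have cUW : ContinuousOn (fun x => (U x, W x)) (tsupport η) := cU.prodMk cW
  have cgU := (continuousOn_grad hD hU).mono hη.2.2
  have cgW := (continuousOn_grad hD hW).mono hη.2.2
  have cgZ := continuous_rot.comp_continuousOn ((continuousOn_grad hD hZ).mono hη.2.2)
  have cη : ContinuousOn η (tsupport η) := hη.1.continuous.continuousOn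
  have cgη : ContinuousOn (fun x => ∇ η x) (tsupport η) := (continuous_grad hη.1).continuousOn
  have hfd : Continuous (fderiv ℝ b) := hb.continuous_fderiv (by simp)
  have hc1 : Continuous fun y => fderiv ℝ b y (1, 0) := hfd.clm_apply continuous_const
  have hc2 : Continuous fun y => fderiv ℝ b y (0, 1) := hfd.clm_apply continuous_const
  have i1 : IntegrableOn (fun x => b (U x, W x) * ⟪∇ η x, rot (∇ Z x)⟫) (tsupport η) :=
    ((hb.continuous.comp_continuousOn cUW).mul (cgη.inner cgZ)).integrableOn_compact hKc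
  have i2 : IntegrableOn (fun x => fderiv ℝ b (U x, W x) (1, 0) * ⟪η x • ∇ U x, rot (∇ Z x)⟫)
      (tsupport η) :=
    ((hc1.comp_continuousOn cUW).mul ((cη.smul cgU).inner cgZ)).integrableOn_compact hKc
  have i3 : IntegrableOn (fun x => fderiv ℝ b (U x, W x) (0, 1) * ⟪η x • ∇ W x, rot (∇ Z x)⟫)
      (tsupport η) :=
    ((hc2.comp_continuousOn cUW).mul ((cη.smul cgW).inner cgZ)).integrableOn_compact hKc
  have i23 : IntegrableOn (fun x => fderiv ℝ b (U x, W x) (1, 0) * ⟪η x • ∇ U x, rot (∇ Z x)⟫ +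
      fderiv ℝ b (U x, W x) (0, 1) * ⟪η x • ∇ W x, rot (∇ Z x)⟫) (tsupport η) := i2.add i3
  rw [← integral_add i2 i3, ← integral_add i1 i23]
  refine Eq.trans (setIntegral_congr_fun hKm fun x hx => ?_) h0
  have hxD := hη.2.2 hx
  have h6 : DifferentiableAt ℝ U x := (hU.contDiffAt (hD.mem_nhds hxD)).differentiableAt (by simp)
  have h7 : DifferentiableAt ℝ W x := (hW.contDiffAt (hD.mem_nhds hxD)).differentiableAt (by simp)
  have h8 : DifferentiableAt ℝ b (U x, W x) := hb.differentiable (by simp) _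
  have h9 : DifferentiableAt ℝ (fun x => b (U x, W x)) x :=
    DifferentiableAt.comp x (f := fun x => (U x, W x)) h8 (h6.prodMk h7)
  show _ = ⟪∇ (fun x => η x * b (U x, W x)) x, rot (∇ Z x)⟫
  rw [grad_mul (hη.1.differentiable (by simp) x) h9, grad_two h6 h7 h8]
  simp only [inner_add_left, inner_smul_left, smul_add, smul_smul, map_mul, conj_trivial]
  ring

/-- the limit in `W` -/
theorem lim_W {ν : Measure (E 2)} {g : ℕ → E 2 → ℝ} {G : E 2 → ℝ} {w : ℕ → E 2 → E 2}
    {Y X : E 2 → E 2} {B C : ℝ} (hg : ∀ i, AEStronglyMeasurable (g i) ν)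
    (hG : AEStronglyMeasurable G ν) (hB : ∀ i x, |g i x| ≤ B) (hB' : ∀ x, |G x| ≤ B)
    (hlim : ∀ᵐ x ∂ν, Tendsto (fun i => g i x) atTop (𝓝 (G x)))
    (hX : AEStronglyMeasurable X ν) (hC : ∀ᵐ x ∂ν, ‖X x‖ ≤ C)
    (hw : ∀ i, MemLp (w i) 1 ν) (hY : MemLp Y 1 ν)
    (hc : Tendsto (fun i => eLpNorm (fun x => w i x - Y x) 1 ν) atTop (𝓝 0)) :
    Tendsto (fun i => ∫ x, g i x * ⟪X x, w i x⟫ ∂ν) atTop (𝓝 (∫ x, G x * ⟪X x, Y x⟫ ∂ν)) := by
  have hint : ∀ Z : E 2 → E 2, MemLp Z 1 ν → Integrable (fun x => ⟪X x, Z x⟫) ν := by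
    intro Z hZ
    rw [← memLp_one_iff_integrable]
    refine hZ.of_le_mul (c := C) (hX.inner hZ.1) ?_
    filter_upwards [hC] with x hx
    exact (norm_inner_le_norm _ _).trans (mul_le_mul_of_nonneg_right hx (norm_nonneg _))
  refine conv1 hg hG hB hB' hlim (fun i => hint _ (hw i)) (hint _ hY) ?_
  refine tendsto_of_le (B := C) (fun i => ?_) hc
  filter_upwards [hC] with x hx
  rw [← inner_sub_right]
  exact (norm_inner_le_norm _ _).trans (mul_le_mul_of_nonneg_right hx (norm_nonneg _))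

theorem tendsto_restrict {F : Type} [NormedAddCommGroup F] {P : ENNReal} {D K : Set (E 2)}
    (hK : K ⊆ D) {μ : Measure (E 2)}
    {f : ℕ → E 2 → F} (h : Tendsto (fun i => eLpNorm (f i) P (μ.restrict D)) atTop (𝓝 0)) :
    Tendsto (fun i => eLpNorm (f i) P (μ.restrict K)) atTop (𝓝 0) :=
  tendsto_of_tendsto_of_tendsto_of_le_of_le tendsto_const_nhds h (fun _ => bot_le)
    fun _ => eLpNorm_mono_measure _ (Measure.restrict_mono hK le_rfl)

theorem ident_core (hst : StokesStatement) {p α β : ℝ} {w : E 2 → ℝ} {D : Set (E 2)}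
    {u v : E 2 → ℝ} {V a : E 2 → E 2} {b : ℝ × ℝ → ℝ} {η : E 2 → ℝ} (hP : Pair p α β w D u v V a)
    (hb : ContDiff ℝ 1 b) (hbc : HasCompactSupport b) (hη : Test D η) {U W : ℕ → E 2 → ℝ}
    (hU : ∀ i, ContDiffOn ℝ ∞ (U i) D) (hW : ∀ i, ContDiffOn ℝ ∞ (W i) D)
    (hUu : ∀ᵐ x ∂(volume.restrict D), Tendsto (fun i => U i x) atTop (𝓝 (u x)))
    (hWv : ∀ᵐ x ∂(volume.restrict D), Tendsto (fun i => W i x) atTop (𝓝 (v x)))
    (a2 : Tendsto (fun i => eLpNorm (fun x => ∇ (U i) x - V x) (ENNReal.ofReal p)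
      ((wm w).restrict D)) atTop (𝓝 0))
    (b2 : Tendsto (fun i => eLpNorm (fun x => ∇ (W i) x - rot (a x)) 1
      (volume.restrict D)) atTop (𝓝 0)) :
    (∫ x, η x * (fderiv ℝ b (u x, v x) (1, 0) * ⟪a x, V x⟫) =
      -∫ x, b (u x, v x) * ⟪a x, ∇ η x⟫) ∧
    (∫ x, η x * (fderiv ℝ b (u x, v x) (0, 1) * ⟪a x, V x⟫) =
      -∫ x, b (u x, v x) * ⟪∇ η x, rot (V x)⟫) := by
  have hwt := hP.wt
  have hD := hwt.isOpen
  have hDm : MeasurableSet D := hD.measurableSet
  have hKc : IsCompact (tsupport η) := hη.2.1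
  have hKm : MeasurableSet (tsupport η) := hKc.measurableSet
  have hKD : tsupport η ⊆ D := hη.2.2
  set ν : Measure (E 2) := volume.restrict (tsupport η) with hν
  have hνD : ν ≤ volume.restrict D := Measure.restrict_mono hKD le_rfl
  have hac : volume.restrict D ≪ (wm w).restrict D := by
    rw [← Measure.ae_le_iff_absolutelyContinuous]
    intro s hs
    exact Wt.ae_of hwt hs
  obtain ⟨L, hL0, hL, -, hLa, hLb, -⟩ := exists_bounds hb hbc
  obtain ⟨K, hK0, hK1, hK2⟩ := hη.exists_bound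
  have hfd : Continuous (fderiv ℝ b) := hb.continuous_fderiv (by simp)
  have hc1 : Continuous fun y => fderiv ℝ b y (1, 0) := hfd.clm_apply continuous_const
  have hc2 : Continuous fun y => fderiv ℝ b y (0, 1) := hfd.clm_apply continuous_const
  -- measurability
  have hsv := hP.sobv
  rw [IsSob, ENNReal.ofReal_one] at hsv
  have mu : AEStronglyMeasurable u ν := (hP.sobu.1.1.mono_ac hac).mono_measure hνD
  have mv : AEStronglyMeasurable v ν := hsv.1.1.mono_measure hνD
  have mVD : AEStronglyMeasurable V (volume.restrict D) := hP.sobu.2.1.1.mono_ac hac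
  have mV : AEStronglyMeasurable V ν := mVD.mono_measure hνD
  have hraD : MemLp (fun x => rot (a x)) 1 (volume.restrict D) := hsv.2.1
  have hra : MemLp (fun x => rot (a x)) 1 ν := hraD.mono_measure hνD
  have mU : ∀ i, AEStronglyMeasurable (U i) ν := fun i =>
    ((hU i).continuousOn.aestronglyMeasurable hDm).mono_measure hνD
  have mW : ∀ i, AEStronglyMeasurable (W i) ν := fun i =>
    ((hW i).continuousOn.aestronglyMeasurable hDm).mono_measure hνD
  have hUu' : ∀ᵐ x ∂ν, Tendsto (fun i => U i x) atTop (𝓝 (u x)) := ae_mono hνD hUu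
  have hWv' : ∀ᵐ x ∂ν, Tendsto (fun i => W i x) atTop (𝓝 (v x)) := ae_mono hνD hWv
  have mη : AEStronglyMeasurable η ν := hη.1.continuous.aestronglyMeasurable
  have mgη : AEStronglyMeasurable (fun x => ∇ η x) ν :=
    (continuous_grad hη.1).aestronglyMeasurable
  have ha : MemLp (fun x => -a x) 1 ν := by
    have h1 : MemLp (fun x => rot (rot (a x))) 1 ν := by
      refine hra.of_le (continuous_rot.comp_aestronglyMeasurable hra.1)
        (Eventually.of_forall fun x => ?_)
      rw [norm_rot]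
    refine h1.congr_norm ?_ (Eventually.of_forall fun x => by rw [rot_rot])
    exact h1.1.congr (Eventually.of_forall fun x => by simp only [rot_rot])
  have mgU : ∀ i, AEStronglyMeasurable (fun x => ∇ (U i) x) ν := fun i =>
    (measurable_grad _).aestronglyMeasurable
  -- the gradients are bounded on the support
  have gb : ∀ i, ∃ C, ∀ᵐ x ∂ν, ‖∇ (U i) x‖ ≤ C := by
    intro i
    obtain ⟨C, hC⟩ := hKc.exists_bound_of_continuousOn
      ((continuousOn_grad hD (hU i)).mono hKD)
    exact ⟨C, (ae_restrict_iff' hKm).2 (Eventually.of_forall hC)⟩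
  have gW : ∀ i, MemLp (fun x => ∇ (W i) x) 1 ν := by
    intro i
    rw [memLp_one_iff_integrable]
    exact ((continuousOn_grad hD (hW i)).mono hKD).integrableOn_compact hKc
  have gU : ∀ i, MemLp (fun x => ∇ (U i) x) 1 ν := by
    intro i
    rw [memLp_one_iff_integrable]
    exact ((continuousOn_grad hD (hU i)).mono hKD).integrableOn_compact hKc
  have b2' : Tendsto (fun i => eLpNorm (fun x => ∇ (W i) x - rot (a x)) 1 ν) atTop (𝓝 0) :=
    tendsto_restrict hKD b2
  have b3' : Tendsto (fun i => eLpNorm (fun x => rot (∇ (W i) x) - -a x) 1 ν) atTop (𝓝 0) := by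
    refine tendsto_of_le (B := 1) (fun i => Eventually.of_forall fun x => ?_) b2'
    rw [← rot_rot, ← rot_sub, norm_rot, one_mul]
  have grW : ∀ i, MemLp (fun x => rot (∇ (W i) x)) 1 ν := fun i =>
    (gW i).of_le (continuous_rot.comp_aestronglyMeasurable (gW i).1)
      (Eventually.of_forall fun x => by rw [norm_rot])
  -- limit `l → ∞`
  have A : ∀ i, (∫ x, b (U i x, v x) * ⟪∇ η x, -a x⟫ ∂ν) +
      ∫ x, fderiv ℝ b (U i x, v x) (1, 0) * ⟪η x • ∇ (U i) x, -a x⟫ ∂ν = 0 := by
    intro i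
    obtain ⟨C, hC⟩ := gb i
    have hlim : ∀ᵐ x ∂ν, Tendsto (fun j => (U i x, W j x)) atTop (𝓝 (U i x, v x)) := by
      filter_upwards [hWv'] with x hx
      exact tendsto_const_nhds.prodMk_nhds hx
    have t1 := lim_W (ν := ν) (g := fun j x => b (U i x, W j x)) (G := fun x => b (U i x, v x))
      (w := fun j x => rot (∇ (W j) x)) (Y := fun x => -a x) (X := fun x => ∇ η x) (B := L)
      (C := K) (fun j => hb.continuous.comp_aestronglyMeasurable ((mU i).prodMk (mW j)))
      (hb.continuous.comp_aestronglyMeasurable ((mU i).prodMk mv)) (fun j x => hL _)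
      (fun x => hL _) (by
        filter_upwards [hlim] with x hx
        exact (hb.continuous.tendsto _).comp hx) mgη (Eventually.of_forall hK2) grW ha b3'
    have t2 := lim_W (ν := ν) (g := fun j x => fderiv ℝ b (U i x, W j x) (1, 0))
      (G := fun x => fderiv ℝ b (U i x, v x) (1, 0))
      (w := fun j x => rot (∇ (W j) x)) (Y := fun x => -a x) (X := fun x => η x • ∇ (U i) x)
      (B := L) (C := K * C) (fun j => hc1.comp_aestronglyMeasurable ((mU i).prodMk (mW j)))
      (hc1.comp_aestronglyMeasurable ((mU i).prodMk mv)) (fun j x => hLa _)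
      (fun x => hLa _) (by
        filter_upwards [hlim] with x hx
        exact (hc1.tendsto _).comp hx) (mη.smul (mgU i)) (by
        filter_upwards [hC] with x hx
        rw [norm_smul]
        exact mul_le_mul (hK1 x) hx (norm_nonneg _) hK0.le) grW ha b3'
    have t3 := t1.add t2
    refine tendsto_nhds_unique t3 ?_
    refine tendsto_const_nhds.congr fun j => ?_
    have h1 := stokes2 hst hD hη hb (hU i) (hW j) (hW j)
    have h2 : ∫ x in tsupport η, fderiv ℝ b (U i x, W j x) (0, 1) *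
        ⟪η x • ∇ (W j) x, rot (∇ (W j) x)⟫ = 0 := by
      rw [show (fun x => fderiv ℝ b (U i x, W j x) (0, 1) *
        ⟪η x • ∇ (W j) x, rot (∇ (W j) x)⟫) = fun _ => 0 from funext fun x => by
          rw [inner_smul_left, real_inner_comm, inner_rot_self]; simp]
      simp
    rw [h2, add_zero] at h1
    exact h1.symm
  have B : ∀ i, (∫ x, b (U i x, v x) * ⟪∇ η x, rot (∇ (U i) x)⟫ ∂ν) +
      ∫ x, fderiv ℝ b (U i x, v x) (0, 1) * ⟪η x • rot (∇ (U i) x), rot (a x)⟫ ∂ν = 0 := by
    intro i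
    obtain ⟨C, hC⟩ := gb i
    have hlim : ∀ᵐ x ∂ν, Tendsto (fun j => (U i x, W j x)) atTop (𝓝 (U i x, v x)) := by
      filter_upwards [hWv'] with x hx
      exact tendsto_const_nhds.prodMk_nhds hx
    have t1 := lim_W (ν := ν) (g := fun j x => b (U i x, W j x)) (G := fun x => b (U i x, v x))
      (w := fun j x => rot (∇ (U i) x)) (Y := fun x => rot (∇ (U i) x)) (X := fun x => ∇ η x)
      (B := L)
      (C := K) (fun j => hb.continuous.comp_aestronglyMeasurable ((mU i).prodMk (mW j)))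
      (hb.continuous.comp_aestronglyMeasurable ((mU i).prodMk mv)) (fun j x => hL _)
      (fun x => hL _) (by
        filter_upwards [hlim] with x hx
        exact (hb.continuous.tendsto _).comp hx) mgη (Eventually.of_forall hK2)
      (fun j => (gU i).of_le (continuous_rot.comp_aestronglyMeasurable (gU i).1)
      (Eventually.of_forall fun x => by rw [norm_rot]))
      ((gU i).of_le (continuous_rot.comp_aestronglyMeasurable (gU i).1)
      (Eventually.of_forall fun x => by rw [norm_rot])) (by simp)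
    have t2 := lim_W (ν := ν) (g := fun j x => fderiv ℝ b (U i x, W j x) (0, 1))
      (G := fun x => fderiv ℝ b (U i x, v x) (0, 1))
      (w := fun j x => ∇ (W j) x) (Y := fun x => rot (a x)) (X := fun x => η x • rot (∇ (U i) x))
      (B := L) (C := K * C) (fun j => hc2.comp_aestronglyMeasurable ((mU i).prodMk (mW j)))
      (hc2.comp_aestronglyMeasurable ((mU i).prodMk mv)) (fun j x => hLb _)
      (fun x => hLb _) (by
        filter_upwards [hlim] with x hx
        exact (hc2.tendsto _).comp hx)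
      (mη.smul (continuous_rot.comp_aestronglyMeasurable (mgU i))) (by
        filter_upwards [hC] with x hx
        rw [norm_smul, norm_rot]
        exact mul_le_mul (hK1 x) hx (norm_nonneg _) hK0.le) gW hra b2'
    have t3 := t1.add t2
    refine tendsto_nhds_unique t3 ?_
    refine tendsto_const_nhds.congr fun j => ?_
    have h1 := stokes2 hst hD hη hb (hU i) (hW j) (hU i)
    have h2 : ∫ x in tsupport η, fderiv ℝ b (U i x, W j x) (1, 0) *
        ⟪η x • ∇ (U i) x, rot (∇ (U i) x)⟫ = 0 := by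
      rw [show (fun x => fderiv ℝ b (U i x, W j x) (1, 0) *
        ⟪η x • ∇ (U i) x, rot (∇ (U i) x)⟫) = fun _ => 0 from funext fun x => by
          rw [inner_smul_left, real_inner_comm, inner_rot_self]; simp]
      simp
    rw [h2, zero_add] at h1
    refine Eq.trans h1.symm ?_
    congr 1
    refine integral_congr_ae (Eventually.of_forall fun x => ?_)
    show fderiv ℝ b (U i x, W j x) (0, 1) * ⟪η x • ∇ (W j) x, rot (∇ (U i) x)⟫ =
      fderiv ℝ b (U i x, W j x) (0, 1) * ⟪η x • rot (∇ (U i) x), ∇ (W j) x⟫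
    rw [inner_smul_left, inner_smul_left, real_inner_comm]
  -- limit `i → ∞`
  obtain ⟨C1, hC1t, hC1⟩ := Wt.le hwt
  obtain ⟨C2, hC2t, hC2⟩ := Pair.le hP
  have hVp : eLpNorm V (ENNReal.ofReal p) ((wm w).restrict D) ≠ ⊤ := hP.sobu.2.1.2.ne
  have hVD1 : MemLp V 1 (volume.restrict D) :=
    ⟨mVD, lt_of_le_of_lt (hC1 V mVD) (ENNReal.mul_lt_top hC1t.lt_top hVp.lt_top)⟩
  have hV1 : MemLp V 1 ν := hVD1.mono_measure hνD
  have hrV1 : MemLp (fun x => rot (V x)) 1 ν := hV1.of_le
    (continuous_rot.comp_aestronglyMeasurable hV1.1) (Eventually.of_forall fun x => by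
      rw [norm_rot])
  have hnn : (-fun x => -a x) = a := by
    funext x
    simp
  have ma : AEStronglyMeasurable a ν := by
    have h1 := ha.1.neg
    rwa [hnn] at h1
  have hUVm : ∀ i, AEStronglyMeasurable (fun x => ∇ (U i) x - V x) (volume.restrict D) :=
    fun i => (measurable_grad _).aestronglyMeasurable.sub mVD
  have hUV : ∀ᵐ x ∂ν, Tendsto (fun i => (U i x, v x)) atTop (𝓝 (u x, v x)) := by
    filter_upwards [hUu'] with x hx
    exact hx.prodMk_nhds tendsto_const_nhds
  have c1 : Tendsto (fun i => eLpNorm (fun x => ∇ (U i) x - V x) 1 ν) atTop (𝓝 0) := by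
    have h1 : Tendsto (fun i => C1 * eLpNorm (fun x => ∇ (U i) x - V x) (ENNReal.ofReal p)
        ((wm w).restrict D)) atTop (𝓝 0) := by
      have := ENNReal.Tendsto.const_mul (a := C1) a2 (Or.inr hC1t)
      simpa using this
    refine tendsto_of_tendsto_of_tendsto_of_le_of_le tendsto_const_nhds h1 (fun _ => bot_le)
      fun i => ?_
    exact (eLpNorm_mono_measure _ hνD).trans (hC1 _ (hUVm i))
  have c1' : Tendsto (fun i => eLpNorm (fun x => rot (∇ (U i) x) - rot (V x)) 1 ν) atTop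
      (𝓝 0) := by
    refine tendsto_of_le (B := 1) (fun i => Eventually.of_forall fun x => ?_) c1
    rw [← rot_sub, norm_rot, one_mul]
  have c2 : Tendsto (fun i => eLpNorm (fun x => ⟪η x • ∇ (U i) x, a x⟫ - ⟪η x • V x, a x⟫) 1 ν)
      atTop (𝓝 0) := by
    have h1 : Tendsto (fun i => ENNReal.ofReal K * (C2 * eLpNorm (fun x => ∇ (U i) x - V x)
        (ENNReal.ofReal p) ((wm w).restrict D))) atTop (𝓝 0) := by
      have h2 := ENNReal.Tendsto.const_mul (a := C2) a2 (Or.inr hC2t)
      rw [mul_zero] at h2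
      have h3 := ENNReal.Tendsto.const_mul (a := ENNReal.ofReal K) h2
        (Or.inr ENNReal.ofReal_ne_top)
      simpa using h3
    refine tendsto_of_tendsto_of_tendsto_of_le_of_le tendsto_const_nhds h1 (fun _ => bot_le)
      fun i => ?_
    rw [eLpNorm_one_eq_lintegral_enorm]
    refine le_trans ?_ (mul_le_mul_right (hC2 _ (hUVm i)) _)
    rw [← lintegral_const_mul' _ _ ENNReal.ofReal_ne_top]
    refine (lintegral_mono' hνD le_rfl).trans (lintegral_mono fun x => ?_)
    rw [← inner_sub_left, ← smul_sub, ← ofReal_norm, ← ofReal_norm, ← ofReal_norm,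
      ← ENNReal.ofReal_mul (norm_nonneg _), ← ENNReal.ofReal_mul hK0.le]
    refine ENNReal.ofReal_le_ofReal ((norm_inner_le_norm _ _).trans ?_)
    rw [norm_smul]
    calc ‖η x‖ * ‖∇ (U i) x - V x‖ * ‖a x‖ ≤ K * ‖∇ (U i) x - V x‖ * ‖a x‖ := by
          refine mul_le_mul_of_nonneg_right ?_ (norm_nonneg _)
          exact mul_le_mul_of_nonneg_right (hK1 x) (norm_nonneg _)
      _ = K * (‖a x‖ * ‖∇ (U i) x - V x‖) := by ring
  have ha1 : MemLp a 1 ν := by
    have h1 := ha.neg
    rwa [hnn] at h1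
  have i1 : ∀ i, Integrable (fun x => ⟪η x • ∇ (U i) x, a x⟫) ν := by
    intro i
    obtain ⟨C, hC⟩ := gb i
    rw [← memLp_one_iff_integrable]
    refine ha1.of_le_mul (c := K * C) ((mη.smul (mgU i)).inner ma) ?_
    filter_upwards [hC] with x hx
    refine (norm_inner_le_norm _ _).trans (mul_le_mul_of_nonneg_right ?_ (norm_nonneg _))
    rw [norm_smul]
    exact mul_le_mul (hK1 x) hx (norm_nonneg _) hK0.le
  have i2 : Integrable (fun x => ⟪η x • V x, a x⟫) ν := by
    rw [← memLp_one_iff_integrable]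
    refine ⟨(mη.smul mV).inner ma, ?_⟩
    rw [eLpNorm_one_eq_lintegral_enorm]
    have h1 : ∫⁻ x, ‖⟪η x • V x, a x⟫‖ₑ ∂ν ≤ ENNReal.ofReal K * ∫⁻ x in D, ‖a x‖ₑ * ‖V x‖ₑ := by
      rw [← lintegral_const_mul' _ _ ENNReal.ofReal_ne_top]
      refine (lintegral_mono' hνD le_rfl).trans (lintegral_mono fun x => ?_)
      rw [← ofReal_norm, ← ofReal_norm, ← ofReal_norm,
        ← ENNReal.ofReal_mul (norm_nonneg _), ← ENNReal.ofReal_mul hK0.le]
      refine ENNReal.ofReal_le_ofReal ((norm_inner_le_norm _ _).trans ?_)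
      rw [norm_smul]
      calc ‖η x‖ * ‖V x‖ * ‖a x‖ ≤ K * ‖V x‖ * ‖a x‖ := by
            refine mul_le_mul_of_nonneg_right ?_ (norm_nonneg _)
            exact mul_le_mul_of_nonneg_right (hK1 x) (norm_nonneg _)
        _ = K * (‖a x‖ * ‖V x‖) := by ring
    refine h1.trans_lt (ENNReal.mul_lt_top ENNReal.ofReal_lt_top ?_)
    exact (hC2 V mVD).trans_lt (ENNReal.mul_lt_top hC2t.lt_top hVp.lt_top)
  have mb : ∀ {f : ℝ × ℝ → ℝ}, Continuous f → ∀ i,
      AEStronglyMeasurable (fun x => f (U i x, v x)) ν := fun hf i =>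
    hf.comp_aestronglyMeasurable ((mU i).prodMk mv)
  have mb' : ∀ {f : ℝ × ℝ → ℝ}, Continuous f →
      AEStronglyMeasurable (fun x => f (u x, v x)) ν := fun hf =>
    hf.comp_aestronglyMeasurable (mu.prodMk mv)
  have lb : ∀ {f : ℝ × ℝ → ℝ}, Continuous f →
      ∀ᵐ x ∂ν, Tendsto (fun i => f (U i x, v x)) atTop (𝓝 (f (u x, v x))) := by
    intro f hf
    filter_upwards [hUV] with x hx
    exact (hf.tendsto _).comp hx
  have T1 := lim_W (ν := ν) (g := fun i x => b (U i x, v x)) (G := fun x => b (u x, v x))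
      (w := fun i x => -a x) (Y := fun x => -a x) (X := fun x => ∇ η x) (B := L)
      (C := K) (mb hb.continuous) (mb' hb.continuous) (fun j x => hL _) (fun x => hL _)
      (lb hb.continuous) mgη (Eventually.of_forall hK2) (fun _ => ha) ha (by simp)
  have T2 := conv1 (ν := ν) (g := fun i x => fderiv ℝ b (U i x, v x) (1, 0))
    (G := fun x => fderiv ℝ b (u x, v x) (1, 0)) (F := fun i x => ⟪η x • ∇ (U i) x, a x⟫)
    (F' := fun x => ⟪η x • V x, a x⟫) (B := L) (mb hc1) (mb' hc1) (fun i x => hLa _)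
    (fun x => hLa _) (lb hc1) i1 i2 c2
  have T3 := lim_W (ν := ν) (g := fun i x => b (U i x, v x)) (G := fun x => b (u x, v x))
      (w := fun i x => rot (∇ (U i) x)) (Y := fun x => rot (V x)) (X := fun x => ∇ η x) (B := L)
      (C := K) (mb hb.continuous) (mb' hb.continuous) (fun j x => hL _) (fun x => hL _)
      (lb hb.continuous) mgη (Eventually.of_forall hK2)
      (fun i => (gU i).of_le (continuous_rot.comp_aestronglyMeasurable (gU i).1)
      (Eventually.of_forall fun x => by rw [norm_rot])) hrV1 c1'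
  have T4 := conv1 (ν := ν) (g := fun i x => fderiv ℝ b (U i x, v x) (0, 1))
    (G := fun x => fderiv ℝ b (u x, v x) (0, 1)) (F := fun i x => ⟪η x • ∇ (U i) x, a x⟫)
    (F' := fun x => ⟪η x • V x, a x⟫) (B := L) (mb hc2) (mb' hc2) (fun i x => hLb _)
    (fun x => hLb _) (lb hc2) i1 i2 c2
  have R1 : (∫ x, b (u x, v x) * ⟪∇ η x, -a x⟫ ∂ν) -
      ∫ x, fderiv ℝ b (u x, v x) (1, 0) * ⟪η x • V x, a x⟫ ∂ν = 0 := by
    refine tendsto_nhds_unique (T1.sub T2) (tendsto_const_nhds.congr fun i => ?_)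
    refine (A i).symm.trans ?_
    rw [sub_eq_add_neg, ← integral_neg]
    congr 1
    refine integral_congr_ae (Eventually.of_forall fun x => ?_)
    show fderiv ℝ b (U i x, v x) (1, 0) * ⟪η x • ∇ (U i) x, -a x⟫ =
      -(fderiv ℝ b (U i x, v x) (1, 0) * ⟪η x • ∇ (U i) x, a x⟫)
    rw [inner_neg_right]
    ring
  have R2 : (∫ x, b (u x, v x) * ⟪∇ η x, rot (V x)⟫ ∂ν) +
      ∫ x, fderiv ℝ b (u x, v x) (0, 1) * ⟪η x • V x, a x⟫ ∂ν = 0 := by
    refine tendsto_nhds_unique (T3.add T4) (tendsto_const_nhds.congr fun i => ?_)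
    refine (B i).symm.trans ?_
    congr 1
    refine integral_congr_ae (Eventually.of_forall fun x => ?_)
    show fderiv ℝ b (U i x, v x) (0, 1) * ⟪η x • rot (∇ (U i) x), rot (a x)⟫ =
      fderiv ℝ b (U i x, v x) (0, 1) * ⟪η x • ∇ (U i) x, a x⟫
    rw [inner_smul_left, inner_smul_left, inner_rot_rot]
  have hoη : ∀ x ∉ tsupport η, η x = 0 := fun x hx => image_eq_zero_of_notMem_tsupport hx
  have hogη : ∀ x ∉ tsupport η, ∇ η x = 0 := fun x hx => grad_eq_zero_of_notMem hx
  constructor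
  · rw [← setIntegral_eq_integral_of_forall_compl_eq_zero (s := tsupport η) (fun x hx => by
      rw [hoη x hx, zero_mul]), ← setIntegral_eq_integral_of_forall_compl_eq_zero
      (s := tsupport η) (f := fun x => b (u x, v x) * ⟪a x, ∇ η x⟫) (fun x hx => by
      rw [hogη x hx, inner_zero_right, mul_zero]), ← integral_neg]
    rw [sub_eq_zero] at R1
    refine Eq.trans ?_ (R1.symm.trans ?_)
    · refine integral_congr_ae (Eventually.of_forall fun x => ?_)
      show η x * (fderiv ℝ b (u x, v x) (1, 0) * ⟪a x, V x⟫) =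
        fderiv ℝ b (u x, v x) (1, 0) * ⟪η x • V x, a x⟫
      rw [inner_smul_left, real_inner_comm, conj_trivial]
      ring
    · refine integral_congr_ae (Eventually.of_forall fun x => ?_)
      show b (u x, v x) * ⟪∇ η x, -a x⟫ = -(b (u x, v x) * ⟪a x, ∇ η x⟫)
      rw [inner_neg_right, real_inner_comm]
      ring
  · rw [← setIntegral_eq_integral_of_forall_compl_eq_zero (s := tsupport η) (fun x hx => by
      rw [hoη x hx, zero_mul]), ← setIntegral_eq_integral_of_forall_compl_eq_zero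
      (s := tsupport η) (f := fun x => b (u x, v x) * ⟪∇ η x, rot (V x)⟫) (fun x hx => by
      rw [hogη x hx, inner_zero_left, mul_zero])]
    rw [add_eq_zero_iff_eq_neg'] at R2
    refine Eq.trans ?_ R2
    refine integral_congr_ae (Eventually.of_forall fun x => ?_)
    show η x * (fderiv ℝ b (u x, v x) (0, 1) * ⟪a x, V x⟫) =
      fderiv ℝ b (u x, v x) (0, 1) * ⟪η x • V x, a x⟫
    rw [inner_smul_left, real_inner_comm, conj_trivial]
    ring

theorem ident (hst : StokesStatement) : IdentStatement := by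
  intro p α β w D u v V a b η hP hb hbc hη
  have hwt := hP.wt
  have hD := hwt.isOpen
  have hDm : MeasurableSet D := hD.measurableSet
  obtain ⟨hu1, hV, U₀, hU₀, a1, a2⟩ := hP.sobu
  have hsv := hP.sobv
  rw [IsSob, ENNReal.ofReal_one] at hsv
  obtain ⟨hv1, hra, W₀, hW₀, b1, b2⟩ := hsv
  have hp0 : 0 < p := by linarith [hwt.hp]
  have hpn : ENNReal.ofReal p ≠ 0 := by simpa using hp0
  have hac' : (wm w).restrict D ≪ volume.restrict D := by
    rw [Wt.restrict_eq hwt]
    exact withDensity_absolutelyContinuous _ _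
  have hU₀m : ∀ i, AEStronglyMeasurable (U₀ i) (volume.restrict D) := fun i =>
    (hU₀ i).continuousOn.aestronglyMeasurable hDm
  have hW₀m : ∀ i, AEStronglyMeasurable (W₀ i) (volume.restrict D) := fun i =>
    (hW₀ i).continuousOn.aestronglyMeasurable hDm
  obtain ⟨k, hk, hk1⟩ := (tendstoInMeasure_of_tendsto_eLpNorm hpn
    (fun i => (hU₀m i).mono_ac hac') hu1.1 a1).exists_seq_tendsto_ae
  obtain ⟨l, hl, hl1⟩ := (tendstoInMeasure_of_tendsto_eLpNorm one_ne_zero hW₀m
    hv1.1 b1).exists_seq_tendsto_ae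
  exact ident_core hst hP hb hbc hη (U := fun i => U₀ (k i)) (W := fun i => W₀ (l i))
    (fun i => hU₀ _) (fun i => hW₀ _) (Wt.ae_of hwt hk1) hl1 (a2.comp hk.tendsto_atTop)
    (b2.comp hl.tendsto_atTop)

end Pool.Agent.Lib.MP_abd978_an.PL.H61
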